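import Pool.Agent.Helper35.MS.StC

/-! Module AV3 of project MS: the gradient inequality (vector algebra). -/

set_option autoImplicit false

namespace Pool.Agent.Helper97.MS

open Helper35.MS Helper35.PI Helper35.PI2 Helper32.CL
open MeasureTheory Set Filter

section

variable {V : Type} [NormedAddCommGroup V] [InnerProductSpace ℝ V]

private theorem two_dim {n₁ n₂ A B C : ℝ} (hn : n₁ ^ 2 + n₂ ^ 2 ≤ 1) (hA : 0 ≤ A) (hB : 0 ≤ B)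
    (hC : C ^ 2 ≤ A * B) : |n₁ * (A - B) + 2 * n₂ * C| ≤ A + B := by
  apply abs_le_of_sq_le_sq _ (by linarith)
  have h1 : (n₁ * (A - B) + 2 * n₂ * C) ^ 2 ≤ (n₁ ^ 2 + n₂ ^ 2) * ((A - B) ^ 2 + (2 * C) ^ 2) := by
    nlinarith [sq_nonneg (n₁ * (2 * C) - n₂ * (A - B))]
  have h2 : (A - B) ^ 2 + (2 * C) ^ 2 ≤ (A + B) ^ 2 := by nlinarith
  calc (n₁ * (A - B) + 2 * n₂ * C) ^ 2 ≤ (n₁ ^ 2 + n₂ ^ 2) * ((A - B) ^ 2 + (2 * C) ^ 2) := h1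
    _ ≤ 1 * ((A - B) ^ 2 + (2 * C) ^ 2) := mul_le_mul_of_nonneg_right hn (by positivity)
    _ ≤ (A + B) ^ 2 := by linarith

/-- elimination of `p`, `q` -/
private theorem elim_pq (m a b m₁ m₂ p q : V) (n₁ n₂ γ Γ : ℝ) :
    (inner ℝ m₁ m₁ + inner ℝ m₂ m₂) * (1 - γ ^ 2 * (n₁ ^ 2 + n₂ ^ 2) / 4)
      + ((inner ℝ m m₁ : ℝ) ^ 2 + (inner ℝ m m₂ : ℝ) ^ 2) *
        (γ * Γ * (n₁ ^ 2 + n₂ ^ 2) - Γ ^ 2 * (n₁ ^ 2 + n₂ ^ 2) * inner ℝ m m)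
      + γ * (n₁ * (inner ℝ m₁ m₁ - inner ℝ m₂ m₂) + 2 * n₂ * inner ℝ m₁ m₂)
      - 2 * Γ * (n₁ * ((inner ℝ m m₁ : ℝ) ^ 2 - (inner ℝ m m₂ : ℝ) ^ 2)
        + 2 * n₂ * (inner ℝ m m₁ * inner ℝ m m₂))
      - 4 * Γ * (inner ℝ m m₁ * (n₁ * inner ℝ m₁ a + n₂ * inner ℝ m₁ b)
        + inner ℝ m m₂ * (n₁ * inner ℝ m₂ a + n₂ * inner ℝ m₂ b)) ≤
    2 * (‖(1 / 2 : ℝ) • m₁ + p‖ ^ 2 + ‖(1 / 2 : ℝ) • m₂ + q‖ ^ 2 + ‖q - (1 / 2 : ℝ) • m₂‖ ^ 2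
      + ‖(1 / 2 : ℝ) • m₁ - p‖ ^ 2)
      + 2 * γ * (n₁ * (inner ℝ m₁ ((1 / 2 : ℝ) • m₁ + p) + inner ℝ m₂ (q - (1 / 2 : ℝ) • m₂))
        + n₂ * (inner ℝ m₁ ((1 / 2 : ℝ) • m₂ + q) + inner ℝ m₂ ((1 / 2 : ℝ) • m₁ - p)))
      - 4 * Γ * (inner ℝ m m₁ * (n₁ * (inner ℝ m₁ a + inner ℝ m ((1 / 2 : ℝ) • m₁ + p))
          + n₂ * (inner ℝ m₁ b + inner ℝ m ((1 / 2 : ℝ) • m₂ + q)))
        + inner ℝ m m₂ * (n₁ * (inner ℝ m₂ a + inner ℝ m (q - (1 / 2 : ℝ) • m₂))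
          + n₂ * (inner ℝ m₂ b + inner ℝ m ((1 / 2 : ℝ) • m₁ - p)))) := by
  set t : ℝ := n₁ * inner ℝ m m₁ - n₂ * inner ℝ m m₂ with ht
  set t' : ℝ := n₂ * inner ℝ m m₁ + n₁ * inner ℝ m m₂ with ht'
  have h1 : 0 ≤ ‖(2 : ℝ) • p + (γ / 2) • (n₁ • m₁ - n₂ • m₂) - (Γ * t) • m‖ ^ 2 := sq_nonneg _
  have h2 : 0 ≤ ‖(2 : ℝ) • q + (γ / 2) • (n₂ • m₁ + n₁ • m₂) - (Γ * t') • m‖ ^ 2 := sq_nonneg _
  simp only [← real_inner_self_eq_norm_sq, inner_add_left, inner_add_right, inner_sub_left,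
    inner_sub_right, real_inner_smul_left, real_inner_smul_right] at h1 h2 ⊢
  have c1 : (inner ℝ m₁ m : ℝ) = inner ℝ m m₁ := real_inner_comm _ _
  have c2 : (inner ℝ m₂ m : ℝ) = inner ℝ m m₂ := real_inner_comm _ _
  have c3 : (inner ℝ m₂ m₁ : ℝ) = inner ℝ m₁ m₂ := real_inner_comm _ _
  have c4 : (inner ℝ p m : ℝ) = inner ℝ m p := real_inner_comm _ _
  have c5 : (inner ℝ q m : ℝ) = inner ℝ m q := real_inner_comm _ _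
  have c6 : (inner ℝ p m₁ : ℝ) = inner ℝ m₁ p := real_inner_comm _ _
  have c7 : (inner ℝ p m₂ : ℝ) = inner ℝ m₂ p := real_inner_comm _ _
  have c8 : (inner ℝ q m₁ : ℝ) = inner ℝ m₁ q := real_inner_comm _ _
  have c9 : (inner ℝ q m₂ : ℝ) = inner ℝ m₂ q := real_inner_comm _ _
  rw [ht] at h1
  rw [ht'] at h2
  simp only [c1, c2, c3, c4, c5, c6, c7, c8, c9] at h1 h2 ⊢
  linarith

/-- one index: completing the square -/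
private theorem one_index (w B : V) {c n Γ t x ξ : ℝ} (hc : 0 < c) (hxξ : x * ξ = 1)
    (hξ : 0 < ξ) (hB : 4 * Γ ^ 2 * (x * inner ℝ B B) ≤ n * c) :
    0 ≤ c * inner ℝ w w + n * (t ^ 2 * ξ) - 4 * Γ * (t * inner ℝ w B) := by
  have h1 : 0 ≤ ‖c • w - (2 * Γ * t) • B‖ ^ 2 := sq_nonneg _
  rw [← real_inner_self_eq_norm_sq] at h1
  simp only [inner_sub_left, inner_sub_right, real_inner_smul_left, real_inner_smul_right] at h1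
  have c1 : (inner ℝ B w : ℝ) = inner ℝ w B := real_inner_comm _ _
  rw [c1] at h1
  have h2 : 0 ≤ t ^ 2 * ξ * (n * c - 4 * Γ ^ 2 * (x * inner ℝ B B)) :=
    mul_nonneg (by positivity) (by linarith)
  have h3 : t ^ 2 * ξ * (n * c - 4 * Γ ^ 2 * (x * inner ℝ B B)) =
      t ^ 2 * ξ * (n * c) - 4 * Γ ^ 2 * t ^ 2 * inner ℝ B B * (x * ξ) := by ring
  rw [h3, hxξ, mul_one] at h2
  have h4 : 0 ≤ c * (c * inner ℝ w w + n * (t ^ 2 * ξ) - 4 * Γ * (t * inner ℝ w B)) := by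
    nlinarith
  exact nonneg_of_mul_nonneg_right h4 hc

private theorem reduced (m a b m₁ m₂ : V) {n₁ n₂ γ Γ k G x c n y : ℝ} (hx : x = inner ℝ m m)
    (hx0 : 0 < x) (hr : n₁ ^ 2 + n₂ ^ 2 ≤ 1) (hγ : 0 < γ) (hΓ : 0 < Γ)
    (hmA : n₁ * inner ℝ m a + n₂ * inner ℝ m b ≤ y) (hc : 0 < c)
    (hcb : c ≤ 1 - 2 * k - γ ^ 2 / 4 - γ)
    (hnb : n ≤ 1 - 2 * k - |γ - 2 * Γ * x| - (γ - 2 * Γ * x) ^ 2 / 4 - 4 * Γ * y - 4 * G * x)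
    (hBB : 4 * Γ ^ 2 * (x * inner ℝ (n₁ • a + n₂ • b) (n₁ • a + n₂ • b) -
      (n₁ * inner ℝ m a + n₂ * inner ℝ m b) ^ 2) ≤ n * c) :
    0 ≤ (inner ℝ m₁ m₁ + inner ℝ m₂ m₂) * (1 - γ ^ 2 * (n₁ ^ 2 + n₂ ^ 2) / 4)
      + ((inner ℝ m m₁ : ℝ) ^ 2 + (inner ℝ m m₂ : ℝ) ^ 2) *
        (γ * Γ * (n₁ ^ 2 + n₂ ^ 2) - Γ ^ 2 * (n₁ ^ 2 + n₂ ^ 2) * inner ℝ m m)
      + γ * (n₁ * (inner ℝ m₁ m₁ - inner ℝ m₂ m₂) + 2 * n₂ * inner ℝ m₁ m₂)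
      - 2 * Γ * (n₁ * ((inner ℝ m m₁ : ℝ) ^ 2 - (inner ℝ m m₂ : ℝ) ^ 2)
        + 2 * n₂ * (inner ℝ m m₁ * inner ℝ m m₂))
      - 4 * Γ * (inner ℝ m m₁ * (n₁ * inner ℝ m₁ a + n₂ * inner ℝ m₁ b)
        + inner ℝ m m₂ * (n₁ * inner ℝ m₂ a + n₂ * inner ℝ m₂ b))
      - 2 * k * (inner ℝ m₁ m₁ + inner ℝ m₂ m₂)
      - 4 * G * ((inner ℝ m m₁ : ℝ) ^ 2 + (inner ℝ m m₂ : ℝ) ^ 2) := by
  set ξ : ℝ := 1 / x with hξd
  have hξ : 0 < ξ := by positivity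
  have hxξ : x * ξ = 1 := by rw [hξd]; field_simp
  set t₁ : ℝ := inner ℝ m m₁ with ht₁
  set t₂ : ℝ := inner ℝ m m₂ with ht₂
  set A : V := n₁ • a + n₂ • b with hA
  have hmAe : (inner ℝ m A : ℝ) = n₁ * inner ℝ m a + n₂ * inner ℝ m b := by
    rw [hA, inner_add_right, real_inner_smul_right, real_inner_smul_right]
  set μA : ℝ := n₁ * inner ℝ m a + n₂ * inner ℝ m b with hμA
  set w₁ : V := m₁ - (t₁ * ξ) • m with hw₁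
  set w₂ : V := m₂ - (t₂ * ξ) • m with hw₂
  set B : V := A - (μA * ξ) • m with hB
  have c1 : (inner ℝ m₁ m : ℝ) = t₁ := by rw [ht₁]; exact real_inner_comm _ _
  have c2 : (inner ℝ m₂ m : ℝ) = t₂ := by rw [ht₂]; exact real_inner_comm _ _
  have c3 : (inner ℝ A m : ℝ) = μA := by rw [← hmAe]; exact real_inner_comm _ _
  have e11 : (inner ℝ w₁ w₁ : ℝ) = inner ℝ m₁ m₁ - t₁ ^ 2 * ξ := by
    rw [hw₁]
    simp only [inner_sub_left, inner_sub_right, real_inner_smul_left, real_inner_smul_right]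
    rw [c1, ← ht₁, ← hx]
    linear_combination (t₁ ^ 2 * ξ) * hxξ
  have e22 : (inner ℝ w₂ w₂ : ℝ) = inner ℝ m₂ m₂ - t₂ ^ 2 * ξ := by
    rw [hw₂]
    simp only [inner_sub_left, inner_sub_right, real_inner_smul_left, real_inner_smul_right]
    rw [c2, ← ht₂, ← hx]
    linear_combination (t₂ ^ 2 * ξ) * hxξ
  have e12 : (inner ℝ w₁ w₂ : ℝ) = inner ℝ m₁ m₂ - t₁ * t₂ * ξ := by
    rw [hw₁, hw₂]
    simp only [inner_sub_left, inner_sub_right, real_inner_smul_left, real_inner_smul_right]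
    rw [c1, ← ht₂, ← hx]
    linear_combination (t₁ * t₂ * ξ) * hxξ
  have f1 : (inner ℝ w₁ B : ℝ) = (n₁ * inner ℝ m₁ a + n₂ * inner ℝ m₁ b) - t₁ * μA * ξ := by
    rw [hw₁, hB]
    simp only [inner_sub_left, inner_sub_right, real_inner_smul_left, real_inner_smul_right]
    rw [c1, hmAe, ← hx]
    have : (inner ℝ m₁ A : ℝ) = n₁ * inner ℝ m₁ a + n₂ * inner ℝ m₁ b := by
      rw [hA, inner_add_right, real_inner_smul_right, real_inner_smul_right]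
    rw [this]
    linear_combination (t₁ * μA * ξ) * hxξ
  have f2 : (inner ℝ w₂ B : ℝ) = (n₁ * inner ℝ m₂ a + n₂ * inner ℝ m₂ b) - t₂ * μA * ξ := by
    rw [hw₂, hB]
    simp only [inner_sub_left, inner_sub_right, real_inner_smul_left, real_inner_smul_right]
    rw [c2, hmAe, ← hx]
    have : (inner ℝ m₂ A : ℝ) = n₁ * inner ℝ m₂ a + n₂ * inner ℝ m₂ b := by
      rw [hA, inner_add_right, real_inner_smul_right, real_inner_smul_right]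
    rw [this]
    linear_combination (t₂ * μA * ξ) * hxξ
  have eBB : x * (inner ℝ B B : ℝ) = x * inner ℝ A A - μA ^ 2 := by
    rw [hB]
    simp only [inner_sub_left, inner_sub_right, real_inner_smul_left, real_inner_smul_right]
    rw [c3, hmAe, ← hx]
    linear_combination (-2 * μA ^ 2 + μA ^ 2 * (x * ξ + 1)) * hxξ
  have hBB' : 4 * Γ ^ 2 * (x * inner ℝ B B) ≤ n * c := by rw [eBB]; exact hBB
  have o1 := one_index w₁ B (t := t₁) hc hxξ hξ hBB'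
  have o2 := one_index w₂ B (t := t₂) hc hxξ hξ hBB'
  have U1 : 0 ≤ (inner ℝ w₁ w₁ : ℝ) := real_inner_self_nonneg
  have U2 : 0 ≤ (inner ℝ w₂ w₂ : ℝ) := real_inner_self_nonneg
  have cs : (inner ℝ w₁ w₂ : ℝ) ^ 2 ≤ inner ℝ w₁ w₁ * inner ℝ w₂ w₂ := by
    rw [pow_two]
    exact real_inner_mul_inner_self_le w₁ w₂
  have T1 := two_dim hr U1 U2 cs
  have T2 := two_dim (n₁ := n₁) (n₂ := n₂) (A := t₁ ^ 2) (B := t₂ ^ 2) (C := t₁ * t₂) hr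
    (sq_nonneg _) (sq_nonneg _) (by rw [mul_pow])
  have T1' := (abs_le.1 T1).1
  set δ : ℝ := γ - 2 * Γ * x with hδ
  -- the second two dimensional term
  have T3 : -(|δ| * (t₁ ^ 2 + t₂ ^ 2)) ≤ δ * (n₁ * (t₁ ^ 2 - t₂ ^ 2) + 2 * n₂ * (t₁ * t₂)) := by
    have h1 : |δ * (n₁ * (t₁ ^ 2 - t₂ ^ 2) + 2 * n₂ * (t₁ * t₂))| ≤ |δ| * (t₁ ^ 2 + t₂ ^ 2) := by
      rw [abs_mul]
      exact mul_le_mul_of_nonneg_left T2 (abs_nonneg _)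
    exact (abs_le.1 h1).1
  set r : ℝ := n₁ ^ 2 + n₂ ^ 2 with hrd
  have hr0 : 0 ≤ r := by positivity
  set U₁ : ℝ := inner ℝ w₁ w₁ with hU₁
  set U₂ : ℝ := inner ℝ w₂ w₂ with hU₂
  set h₁ : ℝ := inner ℝ w₁ B with hh₁
  set h₂ : ℝ := inner ℝ w₂ B with hh₂
  set Dd : ℝ := inner ℝ w₁ w₂ with hDd
  set T₂ : ℝ := n₁ * (t₁ ^ 2 - t₂ ^ 2) + 2 * n₂ * (t₁ * t₂) with hT₂
  have N1 : (inner ℝ m₁ m₁ : ℝ) = U₁ + t₁ ^ 2 * ξ := by linarith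
  have N2 : (inner ℝ m₂ m₂ : ℝ) = U₂ + t₂ ^ 2 * ξ := by linarith
  have N12 : (inner ℝ m₁ m₂ : ℝ) = Dd + t₁ * t₂ * ξ := by linarith
  have G1 : n₁ * inner ℝ m₁ a + n₂ * inner ℝ m₁ b = h₁ + t₁ * μA * ξ := by linarith
  have G2 : n₁ * inner ℝ m₂ a + n₂ * inner ℝ m₂ b = h₂ + t₂ * μA * ξ := by linarith
  rw [N1, N2, N12, G1, G2, ← hx]
  -- the identity
  have key : (U₁ + t₁ ^ 2 * ξ + (U₂ + t₂ ^ 2 * ξ)) * (1 - γ ^ 2 * r / 4)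
      + (t₁ ^ 2 + t₂ ^ 2) * (γ * Γ * r - Γ ^ 2 * r * x)
      + γ * (n₁ * (U₁ + t₁ ^ 2 * ξ - (U₂ + t₂ ^ 2 * ξ)) + 2 * n₂ * (Dd + t₁ * t₂ * ξ))
      - 2 * Γ * T₂
      - 4 * Γ * (t₁ * (h₁ + t₁ * μA * ξ) + t₂ * (h₂ + t₂ * μA * ξ))
      - 2 * k * (U₁ + t₁ ^ 2 * ξ + (U₂ + t₂ ^ 2 * ξ))
      - 4 * G * (t₁ ^ 2 + t₂ ^ 2) =
      (U₁ + U₂) * (1 - 2 * k - γ ^ 2 * r / 4) + γ * (n₁ * (U₁ - U₂) + 2 * n₂ * Dd)
      + ξ * (t₁ ^ 2 + t₂ ^ 2) * (1 - 2 * k - r * δ ^ 2 / 4 - 4 * G * x - 4 * Γ * μA)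
      + ξ * (δ * T₂) - 4 * Γ * (t₁ * h₁ + t₂ * h₂) := by
    rw [hT₂, hδ]
    linear_combination ((t₁ ^ 2 + t₂ ^ 2) * (4 * G + Γ ^ 2 * r * x - γ * Γ * r)
      + 2 * Γ * (n₁ * (t₁ ^ 2 - t₂ ^ 2) + 2 * n₂ * (t₁ * t₂))) * hxξ
  rw [key]
  -- the estimates
  have b1 : c * (U₁ + U₂) ≤ (U₁ + U₂) * (1 - 2 * k - γ ^ 2 * r / 4) +
      γ * (n₁ * (U₁ - U₂) + 2 * n₂ * Dd) := by
    have h0 := mul_nonneg (sq_nonneg γ) (sub_nonneg.2 hr)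
    have h1 : γ ^ 2 * r / 4 ≤ γ ^ 2 / 4 := by linarith
    have h2 : (U₁ + U₂) * (1 - 2 * k - γ ^ 2 / 4 - γ) ≤
        (U₁ + U₂) * (1 - 2 * k - γ ^ 2 * r / 4 - γ) :=
      mul_le_mul_of_nonneg_left (by linarith) (by linarith)
    have h3 : (U₁ + U₂) * c ≤ (U₁ + U₂) * (1 - 2 * k - γ ^ 2 / 4 - γ) :=
      mul_le_mul_of_nonneg_left hcb (by linarith)
    have h4 := mul_le_mul_of_nonneg_left T1' hγ.le
    have h5 : (U₁ + U₂) * (1 - 2 * k - γ ^ 2 * r / 4 - γ) =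
      (U₁ + U₂) * (1 - 2 * k - γ ^ 2 * r / 4) + γ * -(U₁ + U₂) := by ring
    have h6 : (U₁ + U₂) * c = c * (U₁ + U₂) := mul_comm _ _
    rw [h5] at h2
    rw [h6] at h3
    exact h3.trans (h2.trans (add_le_add_right h4 _))
  have b2 : n * (ξ * (t₁ ^ 2 + t₂ ^ 2)) ≤ ξ * (t₁ ^ 2 + t₂ ^ 2) *
      (1 - 2 * k - r * δ ^ 2 / 4 - 4 * G * x - 4 * Γ * μA) + ξ * (δ * T₂) := by
    have h0 := mul_nonneg (sq_nonneg δ) (sub_nonneg.2 hr)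
    have h1 : r * δ ^ 2 / 4 ≤ δ ^ 2 / 4 := by linarith
    have h2 : 4 * Γ * μA ≤ 4 * Γ * y := mul_le_mul_of_nonneg_left hmA (by linarith)
    have h3 : 0 ≤ ξ * (t₁ ^ 2 + t₂ ^ 2) := by positivity
    have h4 := mul_le_mul_of_nonneg_left T3 hξ.le
    have h5 := mul_le_mul_of_nonneg_left hnb h3
    have h6 : ξ * (t₁ ^ 2 + t₂ ^ 2) * (1 - 2 * k - δ ^ 2 / 4 - 4 * G * x - 4 * Γ * y) ≤
        ξ * (t₁ ^ 2 + t₂ ^ 2) * (1 - 2 * k - r * δ ^ 2 / 4 - 4 * G * x - 4 * Γ * μA) :=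
      mul_le_mul_of_nonneg_left (by linarith) h3
    have h7 : ξ * (t₁ ^ 2 + t₂ ^ 2) *
        (1 - 2 * k - |δ| - δ ^ 2 / 4 - 4 * Γ * y - 4 * G * x) =
        ξ * (t₁ ^ 2 + t₂ ^ 2) * (1 - 2 * k - δ ^ 2 / 4 - 4 * G * x - 4 * Γ * y) +
        ξ * -(|δ| * (t₁ ^ 2 + t₂ ^ 2)) := by ring
    rw [h7, mul_comm _ n] at h5
    exact h5.trans (add_le_add h6 h4)
  have b3 : c * (U₁ + U₂) + n * (ξ * (t₁ ^ 2 + t₂ ^ 2)) - 4 * Γ * (t₁ * h₁ + t₂ * h₂) =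
      (c * U₁ + n * (t₁ ^ 2 * ξ) - 4 * Γ * (t₁ * h₁)) +
      (c * U₂ + n * (t₂ ^ 2 * ξ) - 4 * Γ * (t₂ * h₂)) := by ring
  have b4 := add_nonneg o1 o2
  rw [← b3] at b4
  refine b4.trans ?_
  have b5 := add_le_add b1 b2
  have b6 := sub_le_sub_right b5 (4 * Γ * (t₁ * h₁ + t₂ * h₂))
  refine b6.trans (le_of_eq ?_)
  ring

end

theorem hAV3 (hCE0 : StCE0) (hCE3 : StCE3) (_ : StAV1) : StAV3 := by
  intro V _ _ m a b m₁ m₂ p q ε x s v η k G hε hε1 hx hs hv hη hsf hk hG a₁ b₁ a₂ b₂ α β dα₁ dα₂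
    dβ₁ dβ₂ ha₁ hb₁ ha₂ hb₂ hα hβ hdα₁ hdα₂ hdβ₁ hdβ₂
  have hx0 : 0 ≤ x := by rw [hx]; positivity
  obtain ⟨-, hγ, -, hΓ, -, hγ2, -, -, -, -⟩ := hCE0.1 x hx0
  have hv0 : 0 ≤ v := by rw [hv]; positivity
  have hηp : 0 < η := by rw [hη]; exact Real.sqrt_pos.2 (by positivity)
  have hη2 : η ^ 2 = v + ε ^ 2 := by rw [hη]; exact Real.sq_sqrt (by positivity)
  set y : ℝ := Real.sqrt v with hy
  have hy0 : 0 ≤ y := Real.sqrt_nonneg _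
  have hy2 : y ^ 2 = v := Real.sq_sqrt hv0
  have hyη : y ≤ η := by
    rw [hy, hη]
    exact Real.sqrt_le_sqrt (by linarith [sq_nonneg ε])
  have hηy : η ≤ y + ε := by
    rw [hη]
    apply Real.sqrt_le_iff.2
    refine ⟨by linarith, ?_⟩
    have := mul_nonneg hy0 hε.le
    nlinarith
  set γ : ℝ := gm0 x with hγd
  set Γ : ℝ := gm1 x with hΓd
  set n₁ : ℝ := α / η with hn₁
  set n₂ : ℝ := β / η with hn₂
  have hvαβ : α ^ 2 + β ^ 2 = v := by rw [hv, hα, hβ]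
  have hr' : (n₁ ^ 2 + n₂ ^ 2) * η ^ 2 = v := by
    rw [← hvαβ, hn₁, hn₂]
    field_simp
  have hη2p : 0 < η ^ 2 := by positivity
  have hr : n₁ ^ 2 + n₂ ^ 2 ≤ 1 := by
    have h1 : (n₁ ^ 2 + n₂ ^ 2) * η ^ 2 ≤ 1 * η ^ 2 := by
      rw [hr', one_mul, hη2]
      linarith [sq_nonneg ε]
    exact le_of_mul_le_mul_right h1 hη2p
  have hvxs : v ≤ x * s := by
    have h1 := real_inner_mul_inner_self_le m a
    have h2 := real_inner_mul_inner_self_le m b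
    rw [real_inner_self_eq_norm_sq, real_inner_self_eq_norm_sq] at h1 h2
    rw [hv, hx, hs]
    linarith
  set g : ℝ := fm0 x - γ * y with hg
  have hsg : s ≤ g := by
    have := mul_le_mul_of_nonneg_left hyη hγ.le
    rw [hsf, hg]
    linarith
  have hyxg : y ^ 2 ≤ x * g := by
    rw [hy2]
    exact hvxs.trans (mul_le_mul_of_nonneg_left hsg hx0)
  obtain ⟨hc, hn, hnc⟩ := hCE3 x y hx0 hy0 g _ _ _ rfl hyxg rfl rfl rfl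
  rw [← hγd, ← hΓd] at hc hn hnc
  have hkkh : k ≤ fm1 x + Γ * (y + 1 / 1000) := by
    have : Γ * η ≤ Γ * (y + 1 / 1000) := mul_le_mul_of_nonneg_left (by linarith) hΓ.le
    rw [hk]
    linarith
  have hGle : G ≤ fm2 x - gm2 x * y := by
    have := mul_le_mul_of_nonneg_left hyη hγ2.le
    rw [hG]
    linarith
  have hGx : 4 * G * x ≤ 4 * (fm2 x - gm2 x * y) * x :=
    mul_le_mul_of_nonneg_right (by linarith) hx0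
  set c : ℝ := 2 - 2 * (fm1 x + Γ * (y + 1 / 1000)) - (2 + γ) ^ 2 / 4 with hcd
  set n : ℝ := 2 - 2 * (fm1 x + Γ * (y + 1 / 1000)) - (2 + |γ - 2 * Γ * x|) ^ 2 / 4 - 4 * Γ * y
    - 4 * (fm2 x - gm2 x * y) * x with hnd
  have hcb : c ≤ 1 - 2 * k - γ ^ 2 / 4 - γ := by
    have : (2 + γ) ^ 2 / 4 = 1 + γ + γ ^ 2 / 4 := by ring
    rw [hcd, this]
    linarith
  have hnb : n ≤ 1 - 2 * k - |γ - 2 * Γ * x| - (γ - 2 * Γ * x) ^ 2 / 4 - 4 * Γ * y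
      - 4 * G * x := by
    have : (2 + |γ - 2 * Γ * x|) ^ 2 / 4 = 1 + |γ - 2 * Γ * x| + |γ - 2 * Γ * x| ^ 2 / 4 := by
      ring
    rw [hnd, this, sq_abs]
    linarith
  have e1 := elim_pq m a b m₁ m₂ p q n₁ n₂ γ Γ
  have hgoal : 2 * (‖a₁‖ ^ 2 + ‖b₁‖ ^ 2 + ‖a₂‖ ^ 2 + ‖b₂‖ ^ 2) - 2 * k * (‖m₁‖ ^ 2 + ‖m₂‖ ^ 2)
      - 4 * G * ((inner ℝ m m₁ : ℝ) ^ 2 + (inner ℝ m m₂ : ℝ) ^ 2)
      + 2 * γ / η * (α * (inner ℝ m₁ a₁ + inner ℝ m₂ a₂) + β * (inner ℝ m₁ b₁ + inner ℝ m₂ b₂))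
      - 4 * Γ / η * ((inner ℝ m m₁ : ℝ) * (α * dα₁ + β * dβ₁)
        + (inner ℝ m m₂ : ℝ) * (α * dα₂ + β * dβ₂)) =
      (2 * (‖(1 / 2 : ℝ) • m₁ + p‖ ^ 2 + ‖(1 / 2 : ℝ) • m₂ + q‖ ^ 2 + ‖q - (1 / 2 : ℝ) • m₂‖ ^ 2
      + ‖(1 / 2 : ℝ) • m₁ - p‖ ^ 2)
      + 2 * γ * (n₁ * (inner ℝ m₁ ((1 / 2 : ℝ) • m₁ + p) + inner ℝ m₂ (q - (1 / 2 : ℝ) • m₂))
        + n₂ * (inner ℝ m₁ ((1 / 2 : ℝ) • m₂ + q) + inner ℝ m₂ ((1 / 2 : ℝ) • m₁ - p)))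
      - 4 * Γ * (inner ℝ m m₁ * (n₁ * (inner ℝ m₁ a + inner ℝ m ((1 / 2 : ℝ) • m₁ + p))
          + n₂ * (inner ℝ m₁ b + inner ℝ m ((1 / 2 : ℝ) • m₂ + q)))
        + inner ℝ m m₂ * (n₁ * (inner ℝ m₂ a + inner ℝ m (q - (1 / 2 : ℝ) • m₂))
          + n₂ * (inner ℝ m₂ b + inner ℝ m ((1 / 2 : ℝ) • m₁ - p)))))
      - 2 * k * (inner ℝ m₁ m₁ + inner ℝ m₂ m₂)
      - 4 * G * ((inner ℝ m m₁ : ℝ) ^ 2 + (inner ℝ m m₂ : ℝ) ^ 2) := by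
    rw [hdα₁, hdα₂, hdβ₁, hdβ₂, ha₁, hb₁, ha₂, hb₂, hn₁, hn₂, real_inner_self_eq_norm_sq,
      real_inner_self_eq_norm_sq]
    ring
  rw [hgoal]
  rcases hx0.eq_or_lt with h0 | hxp
  · -- `m = 0`
    have hm : m = 0 := by
      have h1 : ‖m‖ ^ 2 = 0 := by rw [← hx, ← h0]
      exact norm_eq_zero.1 (pow_eq_zero_iff (two_ne_zero) |>.1 h1)
    have hα0 : α = 0 := by rw [hα, hm, inner_zero_left]
    have hβ0 : β = 0 := by rw [hβ, hm, inner_zero_left]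
    have hn10 : n₁ = 0 := by rw [hn₁, hα0, zero_div]
    have hn20 : n₂ = 0 := by rw [hn₂, hβ0, zero_div]
    have hN1 : 0 ≤ (inner ℝ m₁ m₁ : ℝ) := real_inner_self_nonneg
    have hN2 : 0 ≤ (inner ℝ m₂ m₂ : ℝ) := real_inner_self_nonneg
    have h1k : 0 ≤ 1 - 2 * k := by
      have : 0 ≤ γ ^ 2 / 4 := by positivity
      linarith
    have h2 := mul_nonneg (add_nonneg hN1 hN2) h1k
    rw [hn10, hn20, hm] at e1 ⊢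
    simp only [inner_zero_left] at e1 ⊢
    linarith
  · have hxin : x = inner ℝ m m := by rw [hx, real_inner_self_eq_norm_sq]
    have hmA' : n₁ * inner ℝ m a + n₂ * inner ℝ m b = v / η := by
      rw [← hα, ← hβ, ← hvαβ, hn₁, hn₂]
      ring
    have hmA : n₁ * inner ℝ m a + n₂ * inner ℝ m b ≤ y := by
      rw [hmA', div_le_iff₀ hηp, ← hy2, pow_two]
      exact mul_le_mul_of_nonneg_left hyη hy0
    have hAA : (inner ℝ (n₁ • a + n₂ • b) (n₁ • a + n₂ • b) : ℝ) ≤ (n₁ ^ 2 + n₂ ^ 2) * s := by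
      have h1 : 0 ≤ (inner ℝ (n₂ • a - n₁ • b) (n₂ • a - n₁ • b) : ℝ) := real_inner_self_nonneg
      have c1 : (inner ℝ b a : ℝ) = inner ℝ a b := real_inner_comm _ _
      rw [hs, ← real_inner_self_eq_norm_sq, ← real_inner_self_eq_norm_sq]
      simp only [inner_add_left, inner_add_right, inner_sub_left, inner_sub_right,
        real_inner_smul_left, real_inner_smul_right, c1] at h1 ⊢
      linarith
    have hBB : 4 * Γ ^ 2 * (x * inner ℝ (n₁ • a + n₂ • b) (n₁ • a + n₂ • b) -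
        (n₁ * inner ℝ m a + n₂ * inner ℝ m b) ^ 2) ≤ n * c := by
      refine le_trans ?_ hnc
      apply mul_le_mul_of_nonneg_left _ (by positivity)
      set r : ℝ := n₁ ^ 2 + n₂ ^ 2 with hrd
      have h1 : x * (inner ℝ (n₁ • a + n₂ • b) (n₁ • a + n₂ • b) : ℝ) ≤ x * (r * s) :=
        mul_le_mul_of_nonneg_left hAA hx0
      have h2 : (v / η) ^ 2 = r * v := by
        rw [div_pow, div_eq_iff hη2p.ne']
        linear_combination -v * hr'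
      have h3 : r * (x * s - v) ≤ 1 * (x * s - v) :=
        mul_le_mul_of_nonneg_right hr (by linarith)
      have h4 : x * s ≤ x * g := mul_le_mul_of_nonneg_left hsg hx0
      rw [hmA', h2, hy2]
      linarith
    have h5 := reduced m a b m₁ m₂ (k := k) (G := G) hxin hxp hr hγ hΓ hmA hc hcb hnb hBB
    linarith

end Pool.Agent.Helper97.MS
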