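import Pool.Agent.Helper35.MS.StJ

set_option autoImplicit false

/-!
# Module SBJ of project MS: the area of small balls, sharp constant, open set of times
-/

namespace Pool.Agent.Helper97.MS

open Helper35.MS Helper32.CL Helper35.PI Helper35.PI2 Pool.Agent.Helper35.CL
open scoped ContDiff Manifold Topology ENNReal BigOperators
open MeasureTheory Set Filter

/-- the linear map with matrix `P` -/
noncomputable def Lm (P : Matrix (Fin 2) (Fin 2) ℝ) : EE 2 →ₗ[ℝ] EE 2 :=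
  Matrix.toLin (EuclideanSpace.basisFun (Fin 2) ℝ).toBasis
    (EuclideanSpace.basisFun (Fin 2) ℝ).toBasis P

theorem Lm_apply (P : Matrix (Fin 2) (Fin 2) ℝ) (v : EE 2) (i : Fin 2) :
    Lm P v i = ∑ a, P i a * v a := by
  have h : Lm P v = WithLp.toLp 2 (P.mulVec v.ofLp) := rfl
  rw [h]
  simp [Matrix.mulVec, dotProduct]

theorem Lm_det (P : Matrix (Fin 2) (Fin 2) ℝ) : LinearMap.det (Lm P) = P.det :=
  LinearMap.det_toLin _ _

theorem sum_ee {k : ℕ} (v : EE k) : v = ∑ i, v i • ee i := by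
  ext j
  simp [ee, Pi.single_apply]

/-- `Df ∘ P` is norm preserving -/
theorem df_norm {N : ℕ} {f : EE 2 → EE N} {y : EE 2} {P : Matrix (Fin 2) (Fin 2) ℝ}
    (hP : ∀ a b : Fin 2, (inner ℝ (∑ i, P i a • dv1 f y i) (∑ i, P i b • dv1 f y i) : ℝ)
        = if a = b then 1 else 0) (v : EE 2) : ‖fderiv ℝ f y (Lm P v)‖ = ‖v‖ := by
  have h1 : fderiv ℝ f y (Lm P v) = ∑ a, v a • ∑ i, P i a • dv1 f y i := by
    have e1 : Lm P v = ∑ i, (∑ a, P i a * v a) • ee i := by
      conv_lhs => rw [sum_ee (Lm P v)]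
      exact Finset.sum_congr rfl (fun i _ => by rw [Lm_apply])
    have e2 : fderiv ℝ f y (∑ i, (∑ a, P i a * v a) • ee i) =
        ∑ i, (∑ a, P i a * v a) • dv1 f y i := by
      rw [map_sum]
      exact Finset.sum_congr rfl (fun i _ => (fderiv ℝ f y).map_smul _ _)
    rw [e1, e2]
    simp only [Finset.smul_sum, smul_smul, Finset.sum_smul]
    rw [Finset.sum_comm]
    refine Finset.sum_congr rfl (fun a _ => Finset.sum_congr rfl (fun i _ => ?_))
    rw [mul_comm (P i a)]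
  have h2 : ‖fderiv ℝ f y (Lm P v)‖ ^ 2 = ‖v‖ ^ 2 := by
    rw [h1, ← real_inner_self_eq_norm_sq, EuclideanSpace.norm_sq_eq]
    simp only [Fin.sum_univ_two, inner_add_left, inner_add_right, real_inner_smul_left,
      real_inner_smul_right] at hP ⊢
    have p00 := hP 0 0
    have p01 := hP 0 1
    have p10 := hP 1 0
    have p11 := hP 1 1
    simp only [if_true, Fin.zero_eq_one_iff, OfNat.ofNat_ne_one, if_false, Fin.one_eq_zero_iff,
      Real.norm_eq_abs, sq_abs] at p00 p01 p10 p11 ⊢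
    linear_combination v 0 ^ 2 * p00 + v 0 * v 1 * p01 + v 1 * v 0 * p10 + v 1 ^ 2 * p11
  exact (sq_eq_sq₀ (norm_nonneg _) (norm_nonneg _)).1 h2

theorem sgm_det {N : ℕ} {f : EE 2 → EE N} {y : EE 2} {P : Matrix (Fin 2) (Fin 2) ℝ}
    (hP : P.transpose * gram f y * P = 1) : sgm f y * |P.det| = 1 := by
  have h1 := congrArg Matrix.det hP
  rw [Matrix.det_mul, Matrix.det_mul, Matrix.det_transpose, Matrix.det_one] at h1
  have h2 : (gram f y).det * P.det ^ 2 = 1 := by linear_combination h1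
  unfold sgm
  have h3 : Real.sqrt ((gram f y).det * P.det ^ 2) = 1 := by rw [h2, Real.sqrt_one]
  by_cases hg : 0 ≤ (gram f y).det
  · rw [Real.sqrt_mul hg, Real.sqrt_sq_eq_abs] at h3
    exact h3
  · exfalso
    nlinarith [sq_nonneg P.det]

/-- smoothness of the local representation -/
theorem loc_smooth {n N : ℕ} {M : Type} [TopologicalSpace M] [ChartedSpace (EE n) M]
    [IsManifold (𝓡 n) ∞ M] {J : Set ℝ} {F : M → ℝ → EE N} (hI2 : StI2J) (hF : IsImmJ (n := n) J F) (q : M)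
    {t : ℝ} (ht : t ∈ J) {y : EE n} (hy : y ∈ (chartAt (EE n) q).target) :
    ContDiffAt ℝ ∞ (fun z : EE n × ℝ => F ((chartAt (EE n) q).symm z.1) z.2) (y, t) := by
  have h := hI2 n N M J F hF q
  refine h.contDiffAt ?_
  exact ((chartAt (EE n) q).open_target.prod hF.op).mem_nhds ⟨hy, ht⟩

theorem num_ineq {s d ε κ η : ℝ} (hs : s * d = 1) (hd : 0 ≤ d) (hs0 : 0 ≤ s) (hε : 0 < ε)
    (hκ0 : 0 < κ) (hκ1 : κ < 1) (hκη : 1 - η ≤ 1 - 3 * κ) :
    ENNReal.ofReal ((1 - η) * Real.pi * ε ^ 2) ≤ ENNReal.ofReal ((1 - κ) * s) *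
      (ENNReal.ofReal d * (ENNReal.ofReal (1 / (1 + κ) * ε) ^ 2 * NNReal.pi)) := by
  have hk1 : 0 ≤ 1 - κ := by linarith
  have hk2 : 0 < 1 + κ := by linarith
  have h1 : (ENNReal.ofReal ((1 - κ) * s) *
      (ENNReal.ofReal d * (ENNReal.ofReal (1 / (1 + κ) * ε) ^ 2 * NNReal.pi))) =
      ENNReal.ofReal ((1 - κ) * s * (d * ((1 / (1 + κ) * ε) ^ 2 * Real.pi))) := by
    rw [ENNReal.ofReal_mul (p := (1 - κ) * s) (by positivity), ENNReal.ofReal_mul (p := d) hd,
      ENNReal.ofReal_mul (p := (1 / (1 + κ) * ε) ^ 2) (by positivity),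
      ENNReal.ofReal_pow (by positivity)]
    congr 3
    rw [← NNReal.coe_real_pi, ENNReal.ofReal_coe_nnreal]
  rw [h1]
  apply ENNReal.ofReal_le_ofReal
  have h2 : (1 - κ) * s * (d * ((1 / (1 + κ) * ε) ^ 2 * Real.pi)) =
      (s * d) * ((1 - κ) * (1 / (1 + κ)) ^ 2 * (Real.pi * ε ^ 2)) := by ring
  rw [h2, hs, one_mul]
  have h3 : 1 - 3 * κ ≤ (1 - κ) * (1 / (1 + κ)) ^ 2 := by
    rw [one_div, inv_pow, ← div_eq_mul_inv, le_div_iff₀ (by positivity)]
    nlinarith [pow_pos hκ0 2, pow_pos hκ0 3]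
  have h4 : (1 - η) * Real.pi * ε ^ 2 = (1 - η) * (Real.pi * ε ^ 2) := by ring
  rw [h4]
  exact mul_le_mul_of_nonneg_right (hκη.trans h3) (by positivity)

theorem LI_at {n N : ℕ} {M : Type} [TopologicalSpace M] [ChartedSpace (EE n) M]
    [IsManifold (𝓡 n) ∞ M] {J : Set ℝ} {F : M → ℝ → EE N} (hI3 : StI3J) (hF : IsImmJ (n := n) J F) (q : M)
    {t : ℝ} (ht : t ∈ J) {y : EE n} (hy : y ∈ (chartAt (EE n) q).target) :
    LI (loc (n := n) F q t) y := by
  have h := (hI3 n N M J F hF q ((chartAt (EE n) q).symm y) t ht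
    ((chartAt (EE n) q).map_target hy)).1
  rwa [(chartAt (EE n) q).right_inv hy] at h

theorem sgm_cont {n N : ℕ} {M : Type} [TopologicalSpace M] [ChartedSpace (EE n) M]
    [IsManifold (𝓡 n) ∞ M] {J : Set ℝ} {F : M → ℝ → EE N} (hV1 : StV1) (hI2 : StI2J)
    (hI3 : StI3J) (hF : IsImmJ (n := n) J F) (q : M)
    {t : ℝ} (ht : t ∈ J) {y : EE n} (hy : y ∈ (chartAt (EE n) q).target) :
    0 < sgm (loc (n := n) F q t) y ∧ ContinuousAt (sgm (loc (n := n) F q t)) y := by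
  have hL : LI (fun y' : EE n => (fun z : EE n × ℝ => F ((chartAt (EE n) q).symm z.1) z.2)
      (y', ((y, t) : EE n × ℝ).2)) ((y, t) : EE n × ℝ).1 := LI_at hI3 hF q ht hy
  obtain ⟨h1, h2, -⟩ := hV1 n N (fun z : EE n × ℝ => F ((chartAt (EE n) q).symm z.1) z.2) (y, t)
    (loc_smooth hI2 hF q ht hy) hL
  refine ⟨h1, ?_⟩
  have h3 : ContinuousAt (fun y' : EE n => (y', t)) y := by fun_prop
  have h4 := h2.continuousAt
  have h5 : ContinuousAt (fun y' : EE n => (fun z : EE n × ℝ => sgm (fun y => (fun z : EE n × ℝ =>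
      F ((chartAt (EE n) q).symm z.1) z.2) (y, z.2)) z.1) (y', t)) y :=
    ContinuousAt.comp' (f := fun y' : EE n => (y', t)) h4 h3
  exact h5

set_option maxHeartbeats 1000000 in
theorem hSBJ (hMU : StMUJ) (hV4 : StV4J) (hV1 : StV1) (hI2 : StI2J) (hI3 : StI3J) (hFR : StFR) :
    StSBJ := by
  intro N M _ _ _ _ _ _ _ J F c χ hS t ht q U hU η hη
  classical
  obtain ⟨κ, hκ0, hκ1, hκη⟩ : ∃ κ : ℝ, 0 < κ ∧ κ < 1 ∧ 1 - η ≤ 1 - 3 * κ := by
    refine ⟨min (η / 3) (1 / 2), by positivity, ?_, ?_⟩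
    · exact lt_of_le_of_lt (min_le_right _ _) (by norm_num)
    · have := min_le_left (η / 3) (1 / 2)
      linarith
  obtain ⟨s, hs, hMUt⟩ := hMU 2 N M J F c χ hS
  obtain ⟨-, hlin, -⟩ := hMUt t ht
  set C := chartAt (EE 2) q with hC
  set y₀ := C q with hy₀
  set f := loc (n := 2) F q t with hf
  have hqs : q ∈ C.source := mem_chart_source _ q
  have hy₀T : y₀ ∈ C.target := C.map_source hqs
  have hsm := loc_smooth hI2 hS.mcf q ht hy₀T
  have hLI : LI f y₀ := LI_at hI3 hS.mcf q ht hy₀T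
  obtain ⟨hσ0, hσc⟩ := sgm_cont hV1 hI2 hI3 hS.mcf q ht hy₀T
  obtain ⟨-, -, P, -, hPdet, hPg, hPo, -⟩ := hFR 2 N f y₀ hLI
  have hdet : sgm f y₀ * |P.det| = 1 := sgm_det hPg
  have hdet0 : P.det ≠ 0 := hPdet.ne_zero
  have hdL : LinearMap.det (Lm P) ≠ 0 := by rw [Lm_det]; exact hdet0
  set Λe : EE 2 ≃L[ℝ] EE 2 := (LinearMap.equivOfDetNeZero (Lm P) hdL).toContinuousLinearEquiv
    with hΛe
  have hΛ : ∀ v, Λe v = Lm P v := fun v => rfl
  have hfd : HasFDerivAt f (fderiv ℝ f y₀) y₀ := by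
    have h1 : ContDiffAt ℝ ∞ f y₀ :=
      ContDiffAt.comp y₀ (g := fun z : EE 2 × ℝ => F (C.symm z.1) z.2) hsm
        (contDiffAt_id.prodMk contDiffAt_const)
    exact (h1.differentiableAt (by simp)).hasFDerivAt
  have hcont : Tendsto (fun v : EE 2 => y₀ + Λe v) (𝓝 0) (𝓝 y₀) := by
    have h1 : Continuous fun v : EE 2 => y₀ + Λe v := by fun_prop
    have h2 := h1.tendsto 0
    simpa using h2
  have e1 : ∀ᶠ v in 𝓝 (0 : EE 2), y₀ + Λe v ∈ C.target :=
    hcont.eventually (C.open_target.mem_nhds hy₀T)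
  have e2 : ∀ᶠ v in 𝓝 (0 : EE 2), C.symm (y₀ + Λe v) ∈ U :=
    hcont.eventually ((C.tendsto_symm hqs).eventually hU)
  have e3 : ∀ᶠ v in 𝓝 (0 : EE 2), ‖f (y₀ + Λe v) - f y₀‖ ≤ (1 + κ) * ‖v‖ := by
    have h1 : HasFDerivAt (fun v : EE 2 => y₀ + Λe v) (Λe : EE 2 →L[ℝ] EE 2) 0 :=
      (Λe : EE 2 →L[ℝ] EE 2).hasFDerivAt.const_add y₀
    have hfd' : HasFDerivAt f (fderiv ℝ f y₀) (y₀ + Λe 0) := by
      rw [map_zero, add_zero]; exact hfd
    have h2 : HasFDerivAt (fun v : EE 2 => f (y₀ + Λe v))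
        ((fderiv ℝ f y₀).comp (Λe : EE 2 →L[ℝ] EE 2)) 0 :=
      HasFDerivAt.comp (g := f) (f := fun v : EE 2 => y₀ + Λe v) (0 : EE 2) hfd' h1
    have h3 := h2.isLittleO.def hκ0
    filter_upwards [h3] with v hv
    rw [map_zero, add_zero, sub_zero] at hv
    have h4 : ‖((fderiv ℝ f y₀).comp (Λe : EE 2 →L[ℝ] EE 2)) v‖ = ‖v‖ := df_norm hPo v
    have h5 : f (y₀ + Λe v) - f y₀ =
        (f (y₀ + Λe v) - f y₀ - ((fderiv ℝ f y₀).comp (Λe : EE 2 →L[ℝ] EE 2)) v) +
          ((fderiv ℝ f y₀).comp (Λe : EE 2 →L[ℝ] EE 2)) v := by abel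
    rw [h5]
    refine (norm_add_le _ _).trans ?_
    rw [h4]
    linarith
  have e4 : ∀ᶠ v in 𝓝 (0 : EE 2), (1 - κ) * sgm f y₀ ≤ sgm f (y₀ + Λe v) := by
    have h1 : ∀ᶠ y in 𝓝 y₀, (1 - κ) * sgm f y₀ < sgm f y :=
      hσc.eventually (lt_mem_nhds (by nlinarith))
    filter_upwards [hcont.eventually h1] with v hv
    exact hv.le
  obtain ⟨r₀, hr₀, hball⟩ := Metric.eventually_nhds_iff_ball.1 (e1.and (e2.and (e3.and e4)))
  filter_upwards [Ioo_mem_nhdsGT hr₀] with ε hε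
  have hε0 : 0 < ε := hε.1
  have hkp : 0 < 1 + κ := by linarith
  have hrr : 1 / (1 + κ) * ε < r₀ := by
    have h1 : 1 / (1 + κ) ≤ 1 := by rw [div_le_one hkp]; linarith
    have h2 : 1 / (1 + κ) * ε ≤ 1 * ε := mul_le_mul_of_nonneg_right h1 hε0.le
    linarith [hε.2]
  set B : Set (EE 2) := (fun v : EE 2 => y₀ + Λe v) '' Metric.ball 0 (1 / (1 + κ) * ε) with hB
  have hBo : IsOpen B := by
    have h1 : IsOpenMap (fun v : EE 2 => y₀ + Λe v) :=
      (Homeomorph.addLeft y₀).isOpenMap.comp Λe.toHomeomorph.isOpenMap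
    exact h1 _ Metric.isOpen_ball
  have hin : ∀ v ∈ Metric.ball (0 : EE 2) (1 / (1 + κ) * ε), v ∈ Metric.ball (0 : EE 2) r₀ :=
    fun v hv => Metric.ball_subset_ball hrr.le hv
  have hBT : B ⊆ C.target := by
    rintro _ ⟨v, hv, rfl⟩
    exact (hball v (hin v hv)).1
  set E : Set M := C.source ∩ C ⁻¹' B with hE
  have hEo : IsOpen E := C.isOpen_inter_preimage hBo
  have hEm : MeasurableSet E := hEo.measurableSet
  have hEsub : E ⊆ U ∩ {p | ‖F p t - F q t‖ ≤ ε} := by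
    rintro p ⟨hp, v, hv, hpv⟩
    obtain ⟨-, a2, a3, -⟩ := hball v (hin v hv)
    have hps : C.symm (y₀ + Λe v) = p := by
      have : y₀ + Λe v = C p := hpv
      rw [this]
      exact C.left_inv hp
    refine ⟨hps ▸ a2, ?_⟩
    have h1 : f (y₀ + Λe v) = F p t := by
      change F (C.symm (y₀ + Λe v)) t = _
      rw [hps]
    have h2 : f y₀ = F q t := by
      change F (C.symm (C q)) t = _
      rw [C.left_inv hqs]
    change ‖F p t - F q t‖ ≤ ε
    rw [← h1, ← h2]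
    have h3 : ‖v‖ < 1 / (1 + κ) * ε := by
      rw [Metric.mem_ball, dist_zero_right] at hv
      exact hv
    have h4 : (1 + κ) * ‖v‖ ≤ (1 + κ) * (1 / (1 + κ) * ε) :=
      mul_le_mul_of_nonneg_left h3.le hkp.le
    have h5 : (1 + κ) * (1 / (1 + κ) * ε) = ε := by field_simp
    linarith
  refine le_trans ?_ (measure_mono hEsub)
  have hE1 : muM 2 F c χ t E = Lam (n := 2) F c χ t (E.indicator 1) := by
    rw [← hlin _ (measurable_one.indicator hEm), lintegral_indicator_one hEm]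
  rw [hE1]
  unfold Lam
  have hterm : ∀ i, ∫⁻ y in (chartAt (EE 2) (c i)).target,
      ENNReal.ofReal (χ i ((chartAt (EE 2) (c i)).symm y)) *
        E.indicator (1 : M → ℝ≥0∞) ((chartAt (EE 2) (c i)).symm y) *
        ENNReal.ofReal (sgm (loc (n := 2) F (c i) t) y) =
      ∫⁻ y in C.target, ENNReal.ofReal (χ i (C.symm y)) *
        E.indicator (1 : M → ℝ≥0∞) (C.symm y) * ENNReal.ofReal (sgm f y) := by
    intro i
    refine (hV4 2 N M J F hS.mcf t ht (c i) q).1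
      (fun p => ENNReal.ofReal (χ i p) * E.indicator (1 : M → ℝ≥0∞) p) ?_
    intro p hp
    have h1 : ENNReal.ofReal (χ i p) ≠ 0 := left_ne_zero_of_mul hp
    have h2 : E.indicator (1 : M → ℝ≥0∞) p ≠ 0 := right_ne_zero_of_mul hp
    refine ⟨hS.pu.sub i (subset_tsupport _ ?_), ?_⟩
    · intro h0
      apply h1
      rw [h0, ENNReal.ofReal_zero]
    · by_contra hcc
      apply h2
      exact indicator_of_notMem (fun h => hcc h.1) _
  rw [tsum_congr hterm]
  have hmeas : ∀ i, AEMeasurable (fun y => ENNReal.ofReal (χ i (C.symm y)) *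
        E.indicator (1 : M → ℝ≥0∞) (C.symm y) * ENNReal.ofReal (sgm f y))
        (volume.restrict C.target) := by
    intro i
    have h1 : ContinuousOn (fun y => ENNReal.ofReal (χ i (C.symm y) * sgm f y)) C.target := by
      refine ENNReal.continuous_ofReal.comp_continuousOn (ContinuousOn.mul ?_ ?_)
      · exact (hS.pu.smooth i).continuous.comp_continuousOn C.continuousOn_symm
      · intro y hy
        exact (sgm_cont hV1 hI2 hI3 hS.mcf q ht hy).2.continuousWithinAt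
    have h2 := (h1.aemeasurable C.open_target.measurableSet (μ := volume)).indicator
      hBo.measurableSet
    refine h2.congr ?_
    refine (ae_restrict_iff' C.open_target.measurableSet).2 (Filter.Eventually.of_forall ?_)
    intro y hy
    beta_reduce
    by_cases hyB : y ∈ B
    · have h3 : C.symm y ∈ E := ⟨C.map_target hy, by
        change C (C.symm y) ∈ B
        rw [C.right_inv hy]; exact hyB⟩
      rw [indicator_of_mem hyB, indicator_of_mem h3, Pi.one_apply, mul_one,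
        ENNReal.ofReal_mul (hS.pu.nonneg i _)]
    · have h3 : C.symm y ∉ E := by
        intro h4
        apply hyB
        have : C (C.symm y) ∈ B := h4.2
        rwa [C.right_inv hy] at this
      rw [indicator_of_notMem hyB, indicator_of_notMem h3, mul_zero, zero_mul]
  rw [← lintegral_tsum hmeas]
  have hvol : volume B = ENNReal.ofReal |P.det| *
      (ENNReal.ofReal (1 / (1 + κ) * ε) ^ 2 * NNReal.pi) := by
    have h1 : B = (fun y => y₀ + y) '' ((Lm P) '' Metric.ball 0 (1 / (1 + κ) * ε)) := by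
      rw [hB, image_image]
      rfl
    rw [h1, image_add_left, measure_preimage_add, Measure.addHaar_image_linearMap, Lm_det,
      EuclideanSpace.volume_ball_fin_two, ← NNReal.coe_real_pi, ENNReal.ofReal_coe_nnreal]
  calc ENNReal.ofReal ((1 - η) * Real.pi * ε ^ 2) ≤ ENNReal.ofReal ((1 - κ) * sgm f y₀) *
      (ENNReal.ofReal |P.det| * (ENNReal.ofReal (1 / (1 + κ) * ε) ^ 2 * NNReal.pi)) :=
        num_ineq hdet (abs_nonneg _) hσ0.le hε0 hκ0 hκ1 hκη
    _ = ENNReal.ofReal ((1 - κ) * sgm f y₀) * volume B := by rw [hvol]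
    _ = ∫⁻ _ in B, ENNReal.ofReal ((1 - κ) * sgm f y₀) := by rw [setLIntegral_const]
    _ ≤ ∫⁻ y in B, ∑' i, ENNReal.ofReal (χ i (C.symm y)) *
        E.indicator (1 : M → ℝ≥0∞) (C.symm y) * ENNReal.ofReal (sgm f y) := by
        refine setLIntegral_mono' hBo.measurableSet ?_
        intro y hy
        have h3 : C.symm y ∈ E := ⟨C.map_target (hBT hy), by
          change C (C.symm y) ∈ B
          rw [C.right_inv (hBT hy)]; exact hy⟩
        rw [ENNReal.tsum_mul_right, indicator_of_mem h3, Pi.one_apply]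
        simp only [mul_one]
        rw [← ENNReal.ofReal_tsum_of_nonneg (fun i => hS.pu.nonneg i _)
          (hS.pu.sum _).summable, (hS.pu.sum _).tsum_eq, ENNReal.ofReal_one, one_mul]
        obtain ⟨v, hv, rfl⟩ := hy
        exact ENNReal.ofReal_le_ofReal (hball v (hin v hv)).2.2.2
    _ ≤ _ := lintegral_mono_set hBT

end Pool.Agent.Helper97.MS
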